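import Pool.Agent.TH127.PM.Defs
import Mathlib.Analysis.Complex.Polynomial.Basic
import Mathlib.Algebra.Polynomial.Splits
import Mathlib.Data.Fintype.BigOperators

/-!
# The power sums of the reciprocal distances to the critical points
-/

namespace Pool.Agent.TH127.PM

open Polynomial Finset

/-- The values of the first two derivatives of a product of linear factors. -/
lemma derivs {ι : Type*} (s : Finset ι) (w : ι → ℂ) (a : ℂ) (h : ∀ i ∈ s, a - w i ≠ 0) :
    (derivative (∏ i ∈ s, (X - C (w i)))).eval a =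
      (∏ i ∈ s, (a - w i)) * ∑ i ∈ s, (a - w i)⁻¹ ∧
    (derivative (derivative (∏ i ∈ s, (X - C (w i))))).eval a =
      (∏ i ∈ s, (a - w i)) * ((∑ i ∈ s, (a - w i)⁻¹) ^ 2 - ∑ i ∈ s, ((a - w i)⁻¹) ^ 2) := by
  classical
  induction s using Finset.induction_on with
  | empty => simp
  | insert j s hj ih =>
    have hj' := h j (Finset.mem_insert_self j s)
    obtain ⟨h1, h2⟩ := ih (fun i hi => h i (Finset.mem_insert_of_mem hi))
    have h0 : (∏ i ∈ s, (X - C (w i))).eval a = ∏ i ∈ s, (a - w i) := by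
      rw [eval_prod]
      simp
    rw [Finset.prod_insert hj, Finset.prod_insert hj, Finset.sum_insert hj, Finset.sum_insert hj]
    constructor
    · simp only [derivative_mul, derivative_sub, derivative_X, derivative_C, sub_zero, one_mul,
        eval_add, eval_mul, eval_sub, eval_X, eval_C, h0, h1]
      field_simp
    · simp only [derivative_mul, derivative_add, derivative_sub, derivative_X, derivative_C,
        sub_zero, one_mul, eval_add, eval_mul, eval_sub, eval_X, eval_C, h1, h2]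
      field_simp
      ring

/-- The multiset of roots of a polynomial as a family. -/
lemma exists_family (W : Multiset ℂ) : ∃ w : Fin (Multiset.card W) → ℂ,
    W = (Finset.univ : Finset (Fin (Multiset.card W))).val.map w := by
  induction W using Quotient.inductionOn with
  | h l =>
    refine ⟨fun i => l.get i, ?_⟩
    rw [Fin.univ_val_map]
    simp

theorem exists_crit {m : ℕ} (a : ℝ) (z : Fin m → ℂ)
    (ha : (a : ℂ) ∉ (derivative ((X - C (a : ℂ)) * ∏ j, (X - C (z j)))).roots) :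
    (∀ j, (a : ℂ) - z j ≠ 0) ∧ ∃ v : Fin m → ℂ,
      (((derivative ((X - C (a : ℂ)) * ∏ j, (X - C (z j)))).roots).map
        (fun w : ℂ => (‖w - (a : ℂ)‖ ^ 2)⁻¹)).sum = ∑ i, ‖v i‖ ^ 2 ∧
      ∑ i, v i = 2 * ∑ j, ((a : ℂ) - z j)⁻¹ ∧
      ∑ i, v i ^ 2 = (∑ j, ((a : ℂ) - z j)⁻¹) ^ 2 + 3 * ∑ j, (((a : ℂ) - z j)⁻¹) ^ 2 ∧
      ∏ i, v i = (m + 1) * ∏ j, ((a : ℂ) - z j)⁻¹ := by
  set q : ℂ[X] := ∏ j, (X - C (z j)) with hq
  set P : ℂ[X] := derivative ((X - C (a : ℂ)) * q) with hP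
  have hqmonic : q.Monic := monic_prod_of_monic _ _ fun j _ => monic_X_sub_C _
  have hqdeg : q.natDegree = m := by
    rw [hq, natDegree_prod_of_monic _ _ fun j _ => monic_X_sub_C _]
    simp
  have hpmonic : ((X - C (a : ℂ)) * q).Monic := (monic_X_sub_C _).mul hqmonic
  have hpdeg : ((X - C (a : ℂ)) * q).natDegree = m + 1 := by
    rw [(monic_X_sub_C (a : ℂ)).natDegree_mul hqmonic, hqdeg, natDegree_X_sub_C]
    ring
  have hPdeg : P.natDegree = m := by
    rw [hP, natDegree_derivative, hpdeg]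
    rfl
  have hPlead : P.leadingCoeff = (m : ℂ) + 1 := by
    rw [hP, leadingCoeff_derivative, hpmonic.leadingCoeff, hpdeg]
    push_cast
    ring
  have hP0 : P ≠ 0 := by
    intro h
    rw [h, leadingCoeff_zero] at hPlead
    have : ((m : ℂ) + 1) ≠ 0 := by exact_mod_cast Nat.succ_ne_zero m
    exact this hPlead.symm
  have hsplit : P.Splits := IsAlgClosed.splits P
  have hcard : Multiset.card P.roots = m := by rw [← hsplit.natDegree_eq_card_roots, hPdeg]
  obtain ⟨w, hw⟩ : ∃ w : Fin m → ℂ, P.roots = (Finset.univ : Finset (Fin m)).val.map w := by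
    have h := exists_family P.roots
    rw [hcard] at h
    exact h
  have hPprod : P = C ((m : ℂ) + 1) * ∏ i, (X - C (w i)) := by
    conv_lhs => rw [hsplit.eq_prod_roots, hPlead, hw, Multiset.map_map]
    rfl
  have hqa : P.eval (a : ℂ) = q.eval (a : ℂ) := by
    rw [hP]
    simp [derivative_mul]
  have hqa1 : (derivative P).eval (a : ℂ) = 2 * (derivative q).eval (a : ℂ) := by
    rw [hP]
    simp [derivative_mul]
    ring
  have hqa2 : (derivative (derivative P)).eval (a : ℂ) =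
      3 * (derivative (derivative q)).eval (a : ℂ) := by
    rw [hP]
    simp [derivative_mul]
    ring
  have hPa : P.eval (a : ℂ) ≠ 0 := fun h => ha ((mem_roots hP0).2 h)
  have hqprod : q.eval (a : ℂ) = ∏ j, ((a : ℂ) - z j) := by
    rw [hq, eval_prod]
    simp
  have hz : ∀ j, (a : ℂ) - z j ≠ 0 := by
    intro j
    rw [hqa, hqprod] at hPa
    exact Finset.prod_ne_zero_iff.1 hPa j (Finset.mem_univ j)
  have hwprod : P.eval (a : ℂ) = ((m : ℂ) + 1) * ∏ i, ((a : ℂ) - w i) := by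
    rw [hPprod, eval_mul, eval_C, eval_prod]
    simp
  have hm1 : ((m : ℂ) + 1) ≠ 0 := by exact_mod_cast Nat.succ_ne_zero m
  have hwne : ∏ i, ((a : ℂ) - w i) ≠ 0 := fun h => hPa (by rw [hwprod, h, mul_zero])
  have hw0 : ∀ i, (a : ℂ) - w i ≠ 0 := fun i => Finset.prod_ne_zero_iff.1 hwne i (Finset.mem_univ i)
  have hzne : ∏ j, ((a : ℂ) - z j) ≠ 0 := Finset.prod_ne_zero_iff.2 fun j _ => hz j
  obtain ⟨hd1, hd2⟩ := derivs Finset.univ w (a : ℂ) fun i _ => hw0 i
  obtain ⟨he1, he2⟩ := derivs Finset.univ z (a : ℂ) fun i _ => hz i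
  have hPw1 : (derivative P).eval (a : ℂ) =
      ((m : ℂ) + 1) * ((∏ i, ((a : ℂ) - w i)) * ∑ i, ((a : ℂ) - w i)⁻¹) := by
    rw [hPprod, derivative_C_mul, eval_mul, eval_C, hd1]
  have hPw2 : (derivative (derivative P)).eval (a : ℂ) = ((m : ℂ) + 1) *
      ((∏ i, ((a : ℂ) - w i)) * ((∑ i, ((a : ℂ) - w i)⁻¹) ^ 2 - ∑ i, (((a : ℂ) - w i)⁻¹) ^ 2)) := by
    rw [hPprod, derivative_C_mul, derivative_C_mul, eval_mul, eval_C, hd2]
  have hprod : ((m : ℂ) + 1) * ∏ i, ((a : ℂ) - w i) = ∏ j, ((a : ℂ) - z j) := by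
    rw [← hwprod, hqa, hqprod]
  have key1 : ∑ i, ((a : ℂ) - w i)⁻¹ = 2 * ∑ j, ((a : ℂ) - z j)⁻¹ := by
    have h1 : (∏ j, ((a : ℂ) - z j)) * ∑ i, ((a : ℂ) - w i)⁻¹ =
        (∏ j, ((a : ℂ) - z j)) * (2 * ∑ j, ((a : ℂ) - z j)⁻¹) := by
      rw [← hprod, mul_assoc, ← hPw1, hqa1, hq, he1, hprod]
      ring
    exact mul_left_cancel₀ hzne h1
  have key2 : ∑ i, (((a : ℂ) - w i)⁻¹) ^ 2 =
      (∑ j, ((a : ℂ) - z j)⁻¹) ^ 2 + 3 * ∑ j, (((a : ℂ) - z j)⁻¹) ^ 2 := by
    have h1 : (∏ j, ((a : ℂ) - z j)) * ((∑ i, ((a : ℂ) - w i)⁻¹) ^ 2 -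
        ∑ i, (((a : ℂ) - w i)⁻¹) ^ 2) = (∏ j, ((a : ℂ) - z j)) *
          (3 * ((∑ j, ((a : ℂ) - z j)⁻¹) ^ 2 - ∑ j, (((a : ℂ) - z j)⁻¹) ^ 2)) := by
      rw [← hprod, mul_assoc, ← hPw2, hqa2, hq, he2, hprod]
      ring
    have h2 := mul_left_cancel₀ hzne h1
    rw [key1] at h2
    linear_combination -h2
  refine ⟨hz, fun i => ((a : ℂ) - w i)⁻¹, ?_, key1, key2, ?_⟩
  · rw [hw, Multiset.map_map]
    change ∑ i, (‖w i - (a : ℂ)‖ ^ 2)⁻¹ = ∑ i, ‖((a : ℂ) - w i)⁻¹‖ ^ 2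
    refine Finset.sum_congr rfl fun i _ => ?_
    rw [norm_inv, inv_pow, norm_sub_rev]
  · rw [Finset.prod_inv_distrib, Finset.prod_inv_distrib, ← hprod]
    field_simp

end Pool.Agent.TH127.PM
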