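import Mathlib.Analysis.Complex.Basic
import Mathlib.Algebra.Polynomial.Derivative
import Mathlib.Algebra.Polynomial.Roots

/-!
# The power mean of order `-2` of the distances to the critical points: the inequality
-/

namespace Pool.Agent.TH127.PM

open Polynomial

/-- The inequality `M_{-2} ≤ 1` for the polynomial `p = (X - a) ∏_j (X - z_j)` of degree `m + 1`:
either `a` is a critical point of `p`, or the sum of `|w - a|^(-2)` over the critical points `w` of
`p` (with multiplicity) is at least `m`. -/
def PowerMeanLeOne (m : ℕ) (a : ℝ) (z : Fin m → ℂ) : Prop :=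
  (a : ℂ) ∈ (derivative ((X - C (a : ℂ)) * ∏ j, (X - C (z j)))).roots ∨
    (m : ℝ) ≤ (((derivative ((X - C (a : ℂ)) * ∏ j, (X - C (z j)))).roots).map
      (fun w : ℂ => (‖w - (a : ℂ)‖ ^ 2)⁻¹)).sum

end Pool.Agent.TH127.PM
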