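import Pool.Agent.TH127.PM.Ineq

/-!
# Degree five: the case of large `a`
-/

namespace Pool.Agent.TH127.PM

open Finset

/-- The scalar inequality. -/
lemma scalar {s i Δ u β : ℝ} (hs : 178 / 100 ≤ s) (hs2 : s ≤ 2) (hi : i * s = 1)
    (hβ : 0 ≤ β) (hβ1 : β ≤ 2511 / 10000) (hu : 0 ≤ u) (hu1 : u ≤ 5 / 3) (hΔ : Δ = β * u) :
    0 ≤ 12 * (2 - s) * i ^ 2 - 24 * (2 - s) ^ 2 * i ^ 2 + 3 * u - 4 * Δ - 11 * Δ ^ 2 -
      24 * (2 - s) * Δ * i := by
  have hi0 : 0 < i := by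
    by_contra h
    rw [not_lt] at h
    nlinarith
  have hwi : (2 - s) * i ≤ 1237 / 10000 := by
    have h1 : (2 - s) * i = 2 * i - 1 := by linarith
    have h2 : i ≤ 5618 / 10000 := by
      by_contra h
      rw [not_le] at h
      nlinarith
    linarith
  have hΔ0 : 0 ≤ Δ := by rw [hΔ]; positivity
  have hΔ1 : Δ ≤ 2511 / 10000 * u := by rw [hΔ]; exact mul_le_mul_of_nonneg_right hβ1 hu
  have h1 : 0 ≤ 12 * (2 - s) * i ^ 2 - 24 * (2 - s) ^ 2 * i ^ 2 := by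
    have h2 : 12 * (2 - s) * i ^ 2 - 24 * (2 - s) ^ 2 * i ^ 2 =
        12 * (2 - s) * (2 * s - 3) * i ^ 2 := by ring
    rw [h2]
    have h3 : 0 ≤ 2 - s := by linarith
    have h4 : 0 ≤ 2 * s - 3 := by linarith
    positivity
  have h2 : 24 * (2 - s) * Δ * i ≤ 24 * (1237 / 10000) * Δ := by
    have : 24 * (2 - s) * Δ * i = 24 * ((2 - s) * i) * Δ := by ring
    rw [this]
    have := mul_le_mul_of_nonneg_right hwi hΔ0
    linarith
  have h3 : 11 * Δ ^ 2 ≤ 11 * (2511 / 10000 * (5 / 3)) * Δ := by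
    have h4 : Δ ≤ 2511 / 10000 * (5 / 3) := by linarith
    nlinarith
  linarith

lemma X_bound {i β r0 r1 r2 r3 e0 e1 e2 e3 : ℝ} (hβ : 0 ≤ β) (g0 : 0 ≤ r0) (g1 : 0 ≤ r1)
    (g2 : 0 ≤ r2) (g3 : 0 ≤ r3) (k0 : 0 ≤ e0) (k1 : 0 ≤ e1) (k2 : 0 ≤ e2) (k3 : 0 ≤ e3) :
    (i - β * r0 + e0) ^ 2 + (i - β * r1 + e1) ^ 2 + (i - β * r2 + e2) ^ 2 +
      (i - β * r3 + e3) ^ 2 ≤ 4 * i ^ 2 + β ^ 2 * (r0 + r1 + r2 + r3) ^ 2 +
        (e0 + e1 + e2 + e3) ^ 2 - 2 * β * (r0 + r1 + r2 + r3) * i +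
        2 * (e0 + e1 + e2 + e3) * i := by
  have key : 4 * i ^ 2 + β ^ 2 * (r0 + r1 + r2 + r3) ^ 2 + (e0 + e1 + e2 + e3) ^ 2 -
      2 * β * (r0 + r1 + r2 + r3) * i + 2 * (e0 + e1 + e2 + e3) * i -
      ((i - β * r0 + e0) ^ 2 + (i - β * r1 + e1) ^ 2 + (i - β * r2 + e2) ^ 2 +
        (i - β * r3 + e3) ^ 2) =
      2 * β ^ 2 * (r0 * r1 + r0 * r2 + r0 * r3 + r1 * r2 + r1 * r3 + r2 * r3) +
      2 * (e0 * e1 + e0 * e2 + e0 * e3 + e1 * e2 + e1 * e3 + e2 * e3) +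
      2 * β * (r0 * e0 + r1 * e1 + r2 * e2 + r3 * e3) := by ring
  have hpos : 0 ≤ 2 * β ^ 2 * (r0 * r1 + r0 * r2 + r0 * r3 + r1 * r2 + r1 * r3 + r2 * r3) +
      2 * (e0 * e1 + e0 * e2 + e0 * e3 + e1 * e2 + e1 * e3 + e2 * e3) +
      2 * β * (r0 * e0 + r1 * e1 + r2 * e2 + r3 * e3) := by positivity
  linarith

/-- The inequality for `m = 4` and `a ≥ 0.78`. -/
theorem four {a : ℝ} (ha : 78 / 100 ≤ a) (ha1 : a ≤ 1) (t v : Fin 4 → ℂ)
    (hreg : ∀ j, 1 ≤ (1 - a ^ 2) * ‖t j‖ ^ 2 + 2 * a * (t j).re)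
    (hlow : ∀ j, 1 ≤ (1 + a) ^ 2 * ‖t j‖ ^ 2) (hsum : ∑ i, v i = 2 * ∑ j, t j)
    (hsq : ∑ i, v i ^ 2 = (∑ j, t j) ^ 2 + 3 * ∑ j, t j ^ 2)
    (hprod : ∏ i, v i = ((4 : ℕ) + 1 : ℂ) * ∏ j, t j) : (4 : ℝ) ≤ ∑ i, ‖v i‖ ^ 2 := by
  by_contra hF
  rw [not_le] at hF
  -- the product
  have hP := prod_lt_one (fun i => ‖v i‖ ^ 2) (fun i => by positivity) (by exact_mod_cast hF)
  have hP2 : ∏ i, ‖v i‖ ^ 2 = 25 * ∏ j, ‖t j‖ ^ 2 := by
    rw [Finset.prod_pow, Finset.prod_pow, ← norm_prod, ← norm_prod, hprod, norm_mul, mul_pow]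
    congr 1
    norm_num
  obtain ⟨-, hE2⟩ := sum_le_prod (Finset.univ : Finset (Fin 4))
    (fun j => (1 + a) ^ 2 * ‖t j‖ ^ 2) (fun j _ => hlow j)
  have hE3 : ∏ j, (1 + a) ^ 2 * ‖t j‖ ^ 2 = (1 + a) ^ 8 * ∏ j, ‖t j‖ ^ 2 := by
    rw [Finset.prod_mul_distrib, Finset.prod_const, Finset.card_univ, Fintype.card_fin, ← pow_mul]
  rw [Finset.card_univ, Fintype.card_fin, ← Finset.mul_sum, hE3] at hE2
  rw [hP2] at hP
  set Q := ∏ j, ‖t j‖ ^ 2 with hQ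
  set T := ∑ j, ‖t j‖ ^ 2 with hT
  have hs0 : (0 : ℝ) < 1 + a := by linarith
  have hTlt : (1 + a) ^ 2 * T < 3 + (1 + a) ^ 8 / 25 := by
    have h1 : (1 + a) ^ 8 * Q < (1 + a) ^ 8 / 25 := by
      have h2 : (0 : ℝ) < (1 + a) ^ 8 := by positivity
      nlinarith
    push_cast at hE2
    linarith
  -- the first moment
  have hnorm : ‖∑ j, t j‖ ^ 2 < 4 := by
    have h1 := norm_sum_sq_le v
    rw [hsum, norm_mul, Complex.norm_ofNat] at h1
    push_cast at h1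
    nlinarith
  have hnorm2 : ‖∑ j, t j‖ ^ 2 = (∑ j, t j).re ^ 2 + (∑ j, t j).im ^ 2 := by
    rw [← Complex.normSq_eq_norm_sq, Complex.normSq_apply]
    ring
  -- the second moment
  have hsec := second_moment v
  rw [hsum, hsq] at hsec
  have hre2 : ((∑ j, t j) ^ 2 + 3 * ∑ j, t j ^ 2).re =
      (∑ j, t j).re ^ 2 - (∑ j, t j).im ^ 2 + 3 * (2 * ∑ j, (t j).re ^ 2 - T) := by
    have h1 : (∑ j, t j ^ 2).re = 2 * ∑ j, (t j).re ^ 2 - T := by
      rw [hT, Complex.re_sum, Finset.mul_sum, ← Finset.sum_sub_distrib]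
      refine Finset.sum_congr rfl fun j _ => ?_
      rw [← Complex.normSq_eq_norm_sq, Complex.normSq_apply, sq (t j), Complex.mul_re]
      ring
    have h2 : ((∑ j, t j) ^ 2).re = (∑ j, t j).re ^ 2 - (∑ j, t j).im ^ 2 := by
      rw [sq (∑ j, t j), Complex.mul_re]
      ring
    have h3 : ((3 : ℂ) * ∑ j, t j ^ 2).re = 3 * (∑ j, t j ^ 2).re := by
      rw [Complex.mul_re]
      simp
    rw [Complex.add_re, h2, h3, h1]
  have hre1 : ((2 : ℂ) * ∑ j, t j).re = 2 * (∑ j, t j).re := by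
    rw [Complex.mul_re]
    simp
  rw [hre2, hre1] at hsec
  set σ := (∑ j, t j).re with hσ
  set τ := (∑ j, t j).im with hτ
  set X := ∑ j, (t j).re ^ 2 with hX
  push_cast at hsec
  have hmain : σ ^ 2 + 3 * T - 6 * X < 4 := by nlinarith [sq_nonneg τ]
  have hσ2 : σ < 2 := by nlinarith [sq_nonneg τ]
  rcases eq_or_lt_of_le ha1 with h1 | h1
  · -- `a = 1`
    have h2 : ∀ j, 1 / 2 ≤ (t j).re := by
      intro j
      have := hreg j
      rw [h1] at this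
      linarith
    have h3 : (2 : ℝ) ≤ σ := by
      rw [hσ, Complex.re_sum, Fin.sum_univ_four]
      linarith [h2 0, h2 1, h2 2, h2 3]
    linarith
  -- `a < 1`
  set s := 1 + a with hs
  set i := 1 / s with hi
  have his : i * s = 1 := by rw [hi]; field_simp
  have hi0 : 0 < i := by rw [hi]; positivity
  have ha0 : 0 < a := by linarith
  set β := (2 - s) * s / (2 * a) with hβ
  have hβa : 2 * a * β = (2 - s) * s := by rw [hβ]; field_simp
  have hβ0 : 0 < β := by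
    rw [hβ]
    have : 0 < 2 - s := by linarith
    positivity
  have hβ1 : β ≤ 2511 / 10000 := by
    rw [hβ, div_le_iff₀ (by positivity)]
    have h2 : (2 - s) * s = 1 - a ^ 2 := by rw [hs]; ring
    have h3 := pow_le_pow_left₀ (by norm_num : (0 : ℝ) ≤ 78 / 100) ha 2
    rw [h2]
    norm_num at h3 ⊢
    linarith
  set r : Fin 4 → ℝ := fun j => ‖t j‖ ^ 2 - i ^ 2 with hr
  set e : Fin 4 → ℝ := fun j => (t j).re - (i - β * r j) with he
  have hr0 : ∀ j, 0 ≤ r j := by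
    intro j
    have h2 := hlow j
    have h3 : i ^ 2 * 1 ≤ i ^ 2 * (s ^ 2 * ‖t j‖ ^ 2) := mul_le_mul_of_nonneg_left h2 (by positivity)
    have h4 : i ^ 2 * (s ^ 2 * ‖t j‖ ^ 2) = (i * s) ^ 2 * ‖t j‖ ^ 2 := by ring
    rw [h4, his] at h3
    simp only [hr]
    linarith
  have he0 : ∀ j, 0 ≤ e j := by
    intro j
    have h2 := hreg j
    have h3 : ‖t j‖ ^ 2 = r j + i ^ 2 := by simp only [hr]; ring
    rw [h3] at h2
    have h4 : 1 - a ^ 2 = (2 - s) * s := by rw [hs]; ring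
    rw [h4] at h2
    have h5 : (2 - s) * s * i ^ 2 = (2 - s) * i * (i * s) := by ring
    have h6 : (2 - s) * s * (r j + i ^ 2) = 2 * a * β * r j + (2 - s) * i := by
      rw [mul_add, h5, his, hβa]; ring
    rw [h6] at h2
    have h7 : (2 - s) * i = 2 * i - 1 := by linarith
    have h8 : 2 * a * i = 2 - 2 * i := by
      have : a = s - 1 := by rw [hs]; ring
      rw [this]
      linarith
    have h9 : 0 ≤ 2 * a * e j := by
      simp only [he]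
      linarith
    exact nonneg_of_mul_nonneg_right h9 (by linarith)
  set R := ∑ j, r j with hR
  set E := ∑ j, e j with hE
  have hTR : T = 4 * i ^ 2 + R := by
    rw [hT, hR]
    simp only [hr, Fin.sum_univ_four]
    ring
  have hσE : σ = 4 * i - β * R + E := by
    rw [hσ, hR, hE, Complex.re_sum]
    simp only [he, Fin.sum_univ_four]
    ring
  have hR0 : 0 ≤ R := Finset.sum_nonneg fun j _ => hr0 j
  have hE0 : 0 ≤ E := Finset.sum_nonneg fun j _ => he0 j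
  have hXle : X ≤ 4 * i ^ 2 + β ^ 2 * R ^ 2 + E ^ 2 - 2 * β * R * i + 2 * E * i := by
    have h2 : ∀ j, (t j).re = i - β * r j + e j := by
      intro j
      simp only [he]
      ring
    rw [hX, hR, hE]
    simp only [h2, Fin.sum_univ_four]
    exact X_bound hβ0.le (hr0 0) (hr0 1) (hr0 2) (hr0 3) (he0 0) (he0 1) (he0 2) (he0 3)
  -- the quantity `u`
  set u := R - 4 * a * i ^ 2 with hu
  set Δ := β * u with hΔ
  have hβR : β * R = 2 * (2 - s) * i + Δ := by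
    have h2 : R = 4 * a * i ^ 2 + u := by rw [hu]; ring
    have h3 : β * R = 2 * (2 * a * β) * i ^ 2 + β * u := by rw [h2]; ring
    rw [h3, hβa]
    have h4 : 2 * ((2 - s) * s) * i ^ 2 = 2 * (2 - s) * i * (i * s) := by ring
    rw [h4, his]
    ring
  have hsi : s * i = 1 := by linarith
  have hE1 : E < Δ := by
    have h2 : 4 * i - 2 * (2 - s) * i = 2 := by
      have : 4 * i - 2 * (2 - s) * i = 2 * (s * i) := by ring
      rw [this, hsi]
      ring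
    linarith
  have hu0 : 0 ≤ u := by
    have h2 : 0 < β * u := by linarith
    exact (pos_of_mul_pos_right h2 hβ0.le).le
  have hu1 : u ≤ 5 / 3 := by
    have h2 : s ^ 2 * T = 4 * s + s ^ 2 * u := by
      have h3 : T = 4 * i ^ 2 + 4 * a * i ^ 2 + u := by rw [hTR, hu]; ring
      have h4 : 4 * i ^ 2 + 4 * a * i ^ 2 = 4 * (i * s) * i := by rw [hs]; ring
      rw [h3, h4, his]
      have h5 : s ^ 2 * (4 * 1 * i + u) = 4 * s * (s * i) + s ^ 2 * u := by ring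
      rw [h5, hsi]
      ring
    rw [h2] at hTlt
    have h3 : s ≤ 2 := by rw [hs]; linarith
    have h4 : 256 - s ^ 8 ≥ 128 * (2 - s) := by
      have h5 : 256 - s ^ 8 = (2 - s) * (128 + 64 * s + 32 * s ^ 2 + 16 * s ^ 3 + 8 * s ^ 4 +
        4 * s ^ 5 + 2 * s ^ 6 + s ^ 7) := by ring
      rw [h5]
      have h6 : 0 ≤ (2 - s) * (64 * s + 32 * s ^ 2 + 16 * s ^ 3 + 8 * s ^ 4 +
        4 * s ^ 5 + 2 * s ^ 6 + s ^ 7) := by
        have : 0 ≤ 2 - s := by linarith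
        positivity
      linarith
    have h5 : s ^ 2 * u < 524 / 100 := by linarith
    by_contra h6
    rw [not_le] at h6
    have h7 : (178 / 100 : ℝ) ≤ s := by rw [hs]; linarith
    have h8 : (3168 / 1000 : ℝ) ≤ s ^ 2 := by
      have h9 := pow_le_pow_left₀ (by norm_num : (0 : ℝ) ≤ 178 / 100) h7 2
      norm_num at h9 ⊢
      linarith
    have h9 : (3168 / 1000 : ℝ) * (5 / 3) ≤ s ^ 2 * u :=
      mul_le_mul h8 h6.le (by norm_num) (by positivity)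
    linarith
  have hscal := scalar (by rw [hs]; linarith) (by rw [hs]; linarith) his hβ0.le hβ1 hu0 hu1 hΔ
  have hΔ2 : Δ < 2 := by
    have h2 : Δ ≤ 2511 / 10000 * u := by
      rw [hΔ]
      exact mul_le_mul_of_nonneg_right hβ1 hu0
    linarith
  have hσ3 : 2 - Δ ≤ σ := by
    rw [hσE, hβR]
    have h2 : 4 * i - 2 * (2 - s) * i = 2 := by
      have : 4 * i - 2 * (2 - s) * i = 2 * (s * i) := by ring
      rw [this, hsi]
      ring
    linarith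
  have hσ4 : (2 - Δ) ^ 2 ≤ σ ^ 2 := by
    have : 0 ≤ 2 - Δ := by linarith
    gcongr
  have hEE : E ^ 2 ≤ Δ ^ 2 := by gcongr
  have hEi : 2 * E * i ≤ 2 * Δ * i := by
    have := mul_le_mul_of_nonneg_right hE1.le hi0.le
    linarith
  have hX2 : X ≤ 4 * i ^ 2 + (β * R) ^ 2 + Δ ^ 2 - 2 * (β * R) * i + 2 * Δ * i := by
    have : β ^ 2 * R ^ 2 = (β * R) ^ 2 := by ring
    rw [this] at hXle
    have h3 : 2 * β * R * i = 2 * (β * R) * i := by ring
    rw [h3] at hXle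
    linarith
  rw [hβR] at hX2
  have hT2 : T = 4 * i ^ 2 + (4 * a * i ^ 2 + u) := by rw [hTR, hu]; ring
  have hfin : 4 ≤ (2 - Δ) ^ 2 + 3 * T - 6 * (4 * i ^ 2 + (2 * (2 - s) * i + Δ) ^ 2 + Δ ^ 2 -
      2 * (2 * (2 - s) * i + Δ) * i + 2 * Δ * i) := by
    rw [hT2]
    have h2 : (2 - Δ) ^ 2 + 3 * (4 * i ^ 2 + (4 * a * i ^ 2 + u)) -
        6 * (4 * i ^ 2 + (2 * (2 - s) * i + Δ) ^ 2 + Δ ^ 2 -
          2 * (2 * (2 - s) * i + Δ) * i + 2 * Δ * i) - 4 =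
        12 * (2 - s) * i ^ 2 - 24 * (2 - s) ^ 2 * i ^ 2 + 3 * u - 4 * Δ - 11 * Δ ^ 2 -
          24 * (2 - s) * Δ * i := by
      have h3 : a = s - 1 := by rw [hs]; ring
      rw [h3]
      ring
    linarith
  linarith

end Pool.Agent.TH127.PM
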