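import Mathlib.Analysis.Complex.Basic
import Mathlib.Analysis.SpecialFunctions.Exp
import Mathlib.Algebra.Order.Chebyshev
import Mathlib.Tactic.IntervalCases

/-!
# Inequalities for the reciprocal distances
-/

namespace Pool.Agent.TH127.PM

open Finset

variable {m : ℕ}

/-- The region of the numbers `t = 1 / (a - z)`, `|z| ≤ 1`. -/
lemma region {a : ℝ} {z : ℂ} (hz : ‖z‖ ≤ 1) (h : (a : ℂ) - z ≠ 0) :
    1 ≤ (1 - a ^ 2) * ‖((a : ℂ) - z)⁻¹‖ ^ 2 + 2 * a * (((a : ℂ) - z)⁻¹).re := by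
  set u := (a : ℂ) - z with hu
  have hz' : z = (a : ℂ) - u := by rw [hu]; ring
  have hn : 0 < Complex.normSq u := Complex.normSq_pos.2 h
  have h1 : Complex.normSq z ≤ 1 := by
    rw [Complex.normSq_eq_norm_sq]
    have := norm_nonneg z
    nlinarith
  rw [hz', Complex.normSq_apply] at h1
  simp only [Complex.sub_re, Complex.ofReal_re, Complex.sub_im, Complex.ofReal_im] at h1
  rw [norm_inv, inv_pow, ← Complex.normSq_eq_norm_sq, Complex.inv_re]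
  have h2 : Complex.normSq u = u.re * u.re + u.im * u.im := Complex.normSq_apply u
  have h3 : (1 - a ^ 2) * (Complex.normSq u)⁻¹ + 2 * a * (u.re / Complex.normSq u) =
      ((1 - a ^ 2) + 2 * a * u.re) / Complex.normSq u := by
    field_simp
  rw [h3, le_div_iff₀ hn]
  nlinarith

lemma lower {a : ℝ} (ha : 0 ≤ a) {z : ℂ} (hz : ‖z‖ ≤ 1) (h : (a : ℂ) - z ≠ 0) :
    1 ≤ (1 + a) ^ 2 * ‖((a : ℂ) - z)⁻¹‖ ^ 2 := by
  have h1 : ‖(a : ℂ) - z‖ ≤ 1 + a := by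
    refine (norm_sub_le _ _).trans ?_
    rw [Complex.norm_real, Real.norm_of_nonneg ha]
    linarith
  have h2 : 0 < ‖(a : ℂ) - z‖ := norm_pos_iff.2 h
  rw [norm_inv, inv_pow, ← div_eq_mul_inv, le_div_iff₀ (by positivity), one_mul]
  gcongr

/-- For numbers `≥ 1` the sum is at most the product plus the number of terms minus one. -/
lemma sum_le_prod {ι : Type*} (s : Finset ι) (E : ι → ℝ) (h : ∀ i ∈ s, 1 ≤ E i) :
    1 ≤ ∏ i ∈ s, E i ∧ ∑ i ∈ s, E i ≤ s.card - 1 + ∏ i ∈ s, E i := by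
  classical
  induction s using Finset.induction_on with
  | empty => simp
  | insert j s hj ih =>
    obtain ⟨h1, h2⟩ := ih fun i hi => h i (Finset.mem_insert_of_mem hi)
    have h3 := h j (Finset.mem_insert_self j s)
    rw [Finset.prod_insert hj, Finset.sum_insert hj, Finset.card_insert_of_notMem hj]
    push_cast
    constructor <;> nlinarith

/-- The inequality of the arithmetic and geometric means. -/
lemma prod_lt_one (x : Fin m → ℝ) (hx : ∀ i, 0 ≤ x i) (h : ∑ i, x i < m) : ∏ i, x i < 1 := by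
  have h1 : ∏ i, x i ≤ ∏ i, Real.exp (x i - 1) := Finset.prod_le_prod (fun i _ => hx i)
    fun i _ => by have := Real.add_one_le_exp (x i - 1); linarith
  rw [← Real.exp_sum, Finset.sum_sub_distrib] at h1
  refine h1.trans_lt ?_
  rw [← Real.exp_zero]
  apply Real.exp_lt_exp.2
  simpa using h

lemma norm_sum_sq_le (v : Fin m → ℂ) : ‖∑ i, v i‖ ^ 2 ≤ m * ∑ i, ‖v i‖ ^ 2 := by
  have h1 : ‖∑ i, v i‖ ^ 2 ≤ (∑ i, ‖v i‖) ^ 2 := by
    gcongr
    exact norm_sum_le _ _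
  have h2 := sq_sum_le_card_mul_sum_sq (s := (Finset.univ : Finset (Fin m))) (f := fun i => ‖v i‖)
  rw [Finset.card_univ, Fintype.card_fin] at h2
  exact h1.trans h2

/-- A second moment inequality. -/
lemma second_moment (v : Fin m → ℂ) :
    2 * (∑ i, v i).re ^ 2 ≤ m * (∑ i, ‖v i‖ ^ 2 + (∑ i, v i ^ 2).re) := by
  have h1 : ∑ i, ‖v i‖ ^ 2 + (∑ i, v i ^ 2).re = 2 * ∑ i, (v i).re ^ 2 := by
    rw [Complex.re_sum, ← Finset.sum_add_distrib, Finset.mul_sum]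
    refine Finset.sum_congr rfl fun i _ => ?_
    rw [← Complex.normSq_eq_norm_sq, Complex.normSq_apply, sq (v i), Complex.mul_re]
    ring
  rw [h1, Complex.re_sum]
  have h2 := sq_sum_le_card_mul_sum_sq (s := (Finset.univ : Finset (Fin m)))
    (f := fun i => (v i).re)
  rw [Finset.card_univ, Fintype.card_fin] at h2
  linarith

/-- The product criterion. -/
theorem general {a : ℝ} (ha : 0 ≤ a) (ha1 : a ≤ 1)
    (hcond : (1 + a) ^ (2 * m) ≤ ((m : ℝ) + 1) ^ 2 * (1 + m * a)) (hm : 1 ≤ m)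
    (t v : Fin m → ℂ) (hreg : ∀ j, 1 ≤ (1 - a ^ 2) * ‖t j‖ ^ 2 + 2 * a * (t j).re)
    (hlow : ∀ j, 1 ≤ (1 + a) ^ 2 * ‖t j‖ ^ 2) (hsum : ∑ i, v i = 2 * ∑ j, t j)
    (hprod : ∏ i, v i = (m + 1) * ∏ j, t j) : (m : ℝ) ≤ ∑ i, ‖v i‖ ^ 2 := by
  by_contra hF
  rw [not_le] at hF
  have hm' : (1 : ℝ) ≤ m := by exact_mod_cast hm
  have hP := prod_lt_one (fun i => ‖v i‖ ^ 2) (fun i => by positivity) hF
  have hP2 : ∏ i, ‖v i‖ ^ 2 = ((m : ℝ) + 1) ^ 2 * ∏ j, ‖t j‖ ^ 2 := by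
    rw [Finset.prod_pow, Finset.prod_pow, ← norm_prod, ← norm_prod, hprod, norm_mul, mul_pow]
    congr 2
    have : ((m : ℂ) + 1) = ((m + 1 : ℕ) : ℂ) := by push_cast; ring
    rw [this, Complex.norm_natCast]
    push_cast
    ring
  obtain ⟨hE1, hE2⟩ := sum_le_prod (Finset.univ : Finset (Fin m))
    (fun j => (1 + a) ^ 2 * ‖t j‖ ^ 2) (fun j _ => hlow j)
  have hE3 : ∏ j, (1 + a) ^ 2 * ‖t j‖ ^ 2 = (1 + a) ^ (2 * m) * ∏ j, ‖t j‖ ^ 2 := by
    rw [Finset.prod_mul_distrib, Finset.prod_const, Finset.card_univ, Fintype.card_fin, ← pow_mul]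
  rw [Finset.card_univ, Fintype.card_fin, ← Finset.mul_sum] at hE2
  rw [hE3] at hE1 hE2
  rw [hP2] at hP
  set Q := ∏ j, ‖t j‖ ^ 2 with hQ
  have hQ0 : 0 ≤ Q := Finset.prod_nonneg fun _ _ => by positivity
  have h1 : (1 + a) ^ (2 * m) * Q < 1 + m * a := by
    have h2 : (1 + a) ^ (2 * m) * Q ≤ ((m : ℝ) + 1) ^ 2 * (1 + m * a) * Q :=
      mul_le_mul_of_nonneg_right hcond hQ0
    have h3 : ((m : ℝ) + 1) ^ 2 * (1 + m * a) * Q = (((m : ℝ) + 1) ^ 2 * Q) * (1 + m * a) := by ring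
    rw [h3] at h2
    have h4 : 0 < 1 + (m : ℝ) * a := by positivity
    nlinarith
  set T := ∑ j, ‖t j‖ ^ 2 with hT
  have hT1 : (1 + a) ^ 2 * T < m * (1 + a) := by nlinarith
  have hT2 : (1 + a) * T < m := by
    have h5 : 0 < 1 + a := by linarith
    have h6 : (1 + a) * ((1 + a) * T) < (1 + a) * m := by nlinarith
    exact lt_of_mul_lt_mul_left h6 h5.le
  have hre : (m : ℝ) ≤ (1 - a ^ 2) * T + 2 * a * (∑ j, t j).re := by
    have h7 := Finset.sum_le_sum fun (j : Fin m) (_ : j ∈ Finset.univ) => hreg j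
    rw [Finset.sum_add_distrib, ← Finset.mul_sum, ← Finset.mul_sum, ← Complex.re_sum] at h7
    simpa using h7
  rcases eq_or_lt_of_le ha with h0 | h0
  · rw [← h0] at hE1 hcond
    simp only [add_zero, one_pow, one_mul] at hE1
    nlinarith
  · have h8 : (m : ℝ) / 2 ≤ (∑ j, t j).re := by
      have h9 : (1 - a ^ 2) * T ≤ (1 - a) * m := by
        have : (1 - a ^ 2) * T = (1 - a) * ((1 + a) * T) := by ring
        rw [this]
        exact mul_le_mul_of_nonneg_left hT2.le (by linarith)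
      have h10 : a * (m : ℝ) ≤ a * (2 * (∑ j, t j).re) := by linarith
      have := le_of_mul_le_mul_left h10 h0
      linarith
    have h11 := norm_sum_sq_le v
    rw [hsum, norm_mul, Complex.norm_ofNat] at h11
    have h12 : (∑ j, t j).re ≤ ‖∑ j, t j‖ := Complex.re_le_norm _
    have h13 : (m : ℝ) ≤ 2 * ‖∑ j, t j‖ := by linarith
    nlinarith

/-- The product criterion holds for `m ≤ 3`. -/
lemma cond_of_le_three {a : ℝ} (ha : 0 ≤ a) (ha1 : a ≤ 1) (hm : 1 ≤ m) (hm3 : m ≤ 3) :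
    (1 + a) ^ (2 * m) ≤ ((m : ℝ) + 1) ^ 2 * (1 + m * a) := by
  interval_cases m
  · norm_num
    nlinarith
  · norm_num
    nlinarith [mul_nonneg ha (sub_nonneg.2 ha1), mul_nonneg (mul_nonneg ha ha) (sub_nonneg.2 ha1),
      mul_nonneg (mul_nonneg (mul_nonneg ha ha) ha) (sub_nonneg.2 ha1)]
  · norm_num
    have h2 : a ^ 2 ≤ a := by nlinarith
    have h3 : a ^ 3 ≤ a := by nlinarith [pow_nonneg ha 2]
    have h4 : a ^ 4 ≤ a := by nlinarith [pow_nonneg ha 2, pow_nonneg ha 3]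
    have h5 : a ^ 5 ≤ a := by nlinarith [pow_nonneg ha 2, pow_nonneg ha 3, pow_nonneg ha 4]
    have h6 : a ^ 6 ≤ a := by
      nlinarith [pow_nonneg ha 2, pow_nonneg ha 3, pow_nonneg ha 4, pow_nonneg ha 5]
    have h7 : (1 + a) ^ 6 = 1 + 6 * a + 15 * a ^ 2 + 20 * a ^ 3 + 15 * a ^ 4 + 6 * a ^ 5 + a ^ 6 := by
      ring
    rw [h7]
    nlinarith

/-- The product criterion for `m = 4` and `a ≤ 0.78`. -/
lemma cond_four {a : ℝ} (ha : 0 ≤ a) (ha1 : a ≤ 78 / 100) :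
    (1 + a) ^ (2 * 4) ≤ (((4 : ℕ) : ℝ) + 1) ^ 2 * (1 + ((4 : ℕ) : ℝ) * a) := by
  have hs : 1 + a ≤ 178 / 100 := by linarith
  have hs0 : 0 ≤ 1 + a := by linarith
  have hk : ∀ k : ℕ, (1 + a) ^ k ≤ (178 / 100) ^ k := fun k => pow_le_pow_left₀ hs0 hs k
  have h1 := hk 1
  have h2 := hk 2
  have h3 := hk 3
  have h4 := hk 4
  have h5 := hk 5
  have h6 := hk 6
  have h7 := hk 7
  have h8 : (1 + a) ^ 8 = 1 + a * (1 + (1 + a) ^ 1 + (1 + a) ^ 2 + (1 + a) ^ 3 + (1 + a) ^ 4 +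
      (1 + a) ^ 5 + (1 + a) ^ 6 + (1 + a) ^ 7) := by ring
  have h9 : 1 + (1 + a) ^ 1 + (1 + a) ^ 2 + (1 + a) ^ 3 + (1 + a) ^ 4 +
      (1 + a) ^ 5 + (1 + a) ^ 6 + (1 + a) ^ 7 ≤ 128 := by
    norm_num at h1 h2 h3 h4 h5 h6 h7 ⊢
    linarith
  have h10 : a * (1 + (1 + a) ^ 1 + (1 + a) ^ 2 + (1 + a) ^ 3 + (1 + a) ^ 4 +
      (1 + a) ^ 5 + (1 + a) ^ 6 + (1 + a) ^ 7) ≤ a * 128 := mul_le_mul_of_nonneg_left h9 ha
  norm_num
  linarith

end Pool.Agent.TH127.PM
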