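import Pool.Agent.TH127.PM.Alg
import Pool.Agent.TH127.PM.Four

/-!
# The power mean of order `-2`: small degrees and small `a`; real zeros
-/

namespace Pool.Agent.TH127.PM

open Finset

theorem small {m : ℕ} (hm : 1 ≤ m) {a : ℝ} (ha : 0 ≤ a) (ha1 : a ≤ 1) (z : Fin m → ℂ)
    (hz : ∀ j, ‖z j‖ ≤ 1)
    (h : m ≤ 4 ∨ (1 + a) ^ (2 * m) ≤ ((m : ℝ) + 1) ^ 2 * (1 + m * a)) :
    PowerMeanLeOne m a z := by
  by_cases hroot : (a : ℂ) ∈ (Polynomial.derivative ((Polynomial.X - Polynomial.C (a : ℂ)) *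
      ∏ j, (Polynomial.X - Polynomial.C (z j)))).roots
  · exact Or.inl hroot
  right
  obtain ⟨hne, v, hv, h1, h2, h3⟩ := exists_crit a z hroot
  rw [hv]
  have hreg := fun j => region (a := a) (hz j) (hne j)
  have hlow := fun j => lower ha (hz j) (hne j)
  by_cases hcond : (1 + a) ^ (2 * m) ≤ ((m : ℝ) + 1) ^ 2 * (1 + m * a)
  · exact general ha ha1 hcond hm _ v hreg hlow h1 h3
  have hm4 : m ≤ 4 := by
    rcases h with h | h
    · exact h
    · exact absurd h hcond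
  have hm5 : m = 4 := by
    by_contra hne4
    exact hcond (cond_of_le_three ha ha1 hm (by omega))
  subst hm5
  have ha78 : 78 / 100 ≤ a := by
    by_contra hlt
    exact hcond (cond_four ha (not_le.1 hlt).le)
  exact four ha78 ha1 _ v hreg hlow h1 h2 (by exact_mod_cast h3)

/-- Real numbers `t` which are at least `1 / 2` or at most `-1`. -/
lemma real_ineq {m : ℕ} (hm : 1 ≤ m) (x : Fin m → ℝ) (hx : ∀ j, 1 / 2 ≤ x j ∨ x j ≤ -1) :
    (m : ℝ) ≤ (∑ j, x j) ^ 2 + 3 * ∑ j, x j ^ 2 := by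
  have h1 : ∀ j, 5 / 4 ≤ 3 * x j ^ 2 + x j := by
    intro j
    rcases hx j with h | h <;> nlinarith
  have h2 := Finset.sum_le_sum fun (j : Fin m) (_ : j ∈ Finset.univ) => h1 j
  rw [Finset.sum_add_distrib, ← Finset.mul_sum, Finset.sum_const, Finset.card_univ,
    Fintype.card_fin, nsmul_eq_mul] at h2
  have hm' : (1 : ℝ) ≤ m := by exact_mod_cast hm
  nlinarith [sq_nonneg ((∑ j, x j) - 1 / 2)]

theorem realZeros {m : ℕ} (hm : 1 ≤ m) {a : ℝ} (ha : 0 ≤ a) (ha1 : a ≤ 1) (z : Fin m → ℂ)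
    (hz : ∀ j, ‖z j‖ ≤ 1) (h : ∀ j, (z j).im = 0) : PowerMeanLeOne m a z := by
  by_cases hroot : (a : ℂ) ∈ (Polynomial.derivative ((Polynomial.X - Polynomial.C (a : ℂ)) *
      ∏ j, (Polynomial.X - Polynomial.C (z j)))).roots
  · exact Or.inl hroot
  right
  obtain ⟨hne, v, hv, h1, h2, h3⟩ := exists_crit a z hroot
  rw [hv]
  have hzr : ∀ j, z j = ((z j).re : ℂ) := fun j => Complex.ext rfl (by simp [h j])
  set x : Fin m → ℝ := fun j => (a - (z j).re)⁻¹ with hx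
  have ht : ∀ j, ((a : ℂ) - z j)⁻¹ = (x j : ℂ) := by
    intro j
    rw [hzr j]
    simp only [hx]
    push_cast
    simp
  simp only [ht] at h2
  have h4 : ‖∑ i, v i ^ 2‖ ≤ ∑ i, ‖v i‖ ^ 2 := by
    refine (norm_sum_le _ _).trans (le_of_eq (Finset.sum_congr rfl fun i _ => ?_))
    rw [norm_pow]
  refine le_trans ?_ h4
  rw [h2]
  have h5 : (∑ j, (x j : ℂ)) ^ 2 + 3 * ∑ j, (x j : ℂ) ^ 2 =
      (((∑ j, x j) ^ 2 + 3 * ∑ j, x j ^ 2 : ℝ) : ℂ) := by
    push_cast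
    ring
  rw [h5, Complex.norm_real]
  refine le_trans (real_ineq hm x fun j => ?_) (Real.le_norm_self _)
  have h6 : a - (z j).re ≠ 0 := by
    intro h0
    apply hne j
    rw [hzr j]
    exact_mod_cast h0
  have h7 : |(z j).re| ≤ 1 := (Complex.abs_re_le_norm _).trans (hz j)
  rw [abs_le] at h7
  rcases lt_or_gt_of_ne h6 with h8 | h8
  · right
    simp only [hx]
    rw [inv_le_of_neg h8 (by norm_num)]
    norm_num
    linarith
  · left
    simp only [hx]
    rw [le_inv_comm₀ (by norm_num) h8]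
    norm_num
    linarith

end Pool.Agent.TH127.PM
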